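import Pool.Agent.Y504.CO.Stm8
import Pool.Agent.Y417.CO.MH
import Pool.Agent.Y863.CO.TR

/-!
All maps near a map with a transverse homoclinic orbit have nonperiodic recurrent points; adapted
from `Pool/Agent/Y504/CO/K7.lean` and `Pool/Agent/Y417/CO/MH.lean`.
-/

set_option autoImplicit false

open scoped Manifold ContDiff Topology Pointwise
open Filter Set Metric

universe u

namespace Pool.Agent.Y801.CO.RH

open Pool.Agent.H718R2.G Pool.Agent.TH80.OMS Pool.Agent.Y504.CO Pool.Agent.Y417.CO.MH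

theorem opInter {X : Type*} (t : TopologicalSpace X) {A B : Set X} (h1 : IsOpen[t] A)
    (h2 : IsOpen[t] B) : IsOpen[t] (A ∩ B) := by
  let _ := t
  exact IsOpen.inter h1 h2

/-- Uniform closeness on compact sets. -/
theorem near (hCI : S_CI.{u}) {n : ℕ} {N : Type u} [TopologicalSpace N] [T2Space N]
    [CompactSpace N] [ChartedSpace (V n) N] [IsManifold (𝓡 n) ∞ N] {r : ℕ∞} (hr : 1 ≤ r)
    (g : DiffM n N r) {ψ : OpenPartialHomeomorph N (V n)}
    (hψ : ψ ∈ IsManifold.maximalAtlas (𝓡 n) ∞ N) (k : ℕ) {C : Set (V n)} (hC : IsCompact C)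
    (hCT : C ⊆ ψ.target ∩ (fun v => g^[k] (ψ.symm v)) ⁻¹' ψ.source) {δ : ℝ} (hδ : 0 < δ) :
    ∃ U : Set (DiffM n N r), IsOpen[strongTop n N r] U ∧ g ∈ U ∧ ∀ g' ∈ U, ∀ w ∈ C,
      g'^[k] (ψ.symm w) ∈ ψ.source ∧
      DifferentiableAt ℝ (fun v => ψ (g'^[k] (ψ.symm v))) w ∧
      ‖ψ (g'^[k] (ψ.symm w)) - ψ (g^[k] (ψ.symm w))‖ ≤ δ ∧
      ‖fderiv ℝ (fun v => ψ (g'^[k] (ψ.symm v))) w -
        fderiv ℝ (fun v => ψ (g^[k] (ψ.symm v))) w‖ ≤ δ := by
  refine hC.induction_on (p := fun s => ∃ U : Set (DiffM n N r), IsOpen[strongTop n N r] U ∧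
    g ∈ U ∧ ∀ g' ∈ U, ∀ w ∈ s,
      g'^[k] (ψ.symm w) ∈ ψ.source ∧
      DifferentiableAt ℝ (fun v => ψ (g'^[k] (ψ.symm v))) w ∧
      ‖ψ (g'^[k] (ψ.symm w)) - ψ (g^[k] (ψ.symm w))‖ ≤ δ ∧
      ‖fderiv ℝ (fun v => ψ (g'^[k] (ψ.symm v))) w -
        fderiv ℝ (fun v => ψ (g^[k] (ψ.symm v))) w‖ ≤ δ) ?_ ?_ ?_ ?_
  · exact ⟨univ, @isOpen_univ _ (strongTop n N r), mem_univ _, fun g' _ w hw => absurd hw (by simp)⟩
  · rintro s t hst ⟨U, h1, h2, h3⟩
    exact ⟨U, h1, h2, fun g' hg' w hw => h3 g' hg' w (hst hw)⟩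
  · rintro s t ⟨U, h1, h2, h3⟩ ⟨U', h1', h2', h3'⟩
    refine ⟨U ∩ U', opInter (strongTop n N r) h1 h1', ⟨h2, h2'⟩, ?_⟩
    rintro g' ⟨hg, hg'⟩ w (hw | hw)
    · exact h3 g' hg w hw
    · exact h3' g' hg' w hw
  · intro v hv
    obtain ⟨hvt, hvs⟩ := hCT hv
    have hxs : ψ.symm v ∈ ψ.source := ψ.map_target hvt
    have hxk : g^[k] (ψ.symm v) ∈ ψ.source := hvs
    obtain ⟨c1, c2⟩ := hCI n N r hr g k (ψ.symm v)
    obtain ⟨W1, hW1, U1, hU1, hg1, h1⟩ := c2 ψ hψ ψ hψ hxs hxk (δ / 2) (by positivity)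
    obtain ⟨W2, hW2, U2, hU2, hg2, h2⟩ := c1
      (ψ.source ∩ ψ ⁻¹' ball (ψ (g^[k] (ψ.symm v))) (δ / 2))
      (ψ.isOpen_inter_preimage isOpen_ball) ⟨hxk, mem_ball_self (by positivity)⟩
    have hcs : ContinuousAt ψ.symm v := ψ.continuousAt_symm hvt
    refine ⟨ψ.target ∩ ψ.symm ⁻¹' (W1 ∩ W2), mem_nhdsWithin_of_mem_nhds
      (inter_mem (ψ.open_target.mem_nhds hvt) (hcs (inter_mem hW1 hW2))), U1 ∩ U2,
      opInter (strongTop n N r) hU1 hU2, ⟨hg1, hg2⟩, ?_⟩
    rintro g' ⟨hg'1, hg'2⟩ w ⟨hwt, hw1, hw2⟩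
    obtain ⟨a1, a2, a3⟩ := h1 g' hg'1 _ hw1
    obtain ⟨-, -, b3⟩ := h1 g hg1 _ hw1
    have e1 := (h2 g' hg'2 _ hw2).2
    have e2 := (h2 g hg2 _ hw2).2
    rw [ψ.right_inv hwt] at a3 b3
    simp only [mem_preimage, mem_ball, dist_eq_norm] at e1 e2
    refine ⟨a2, ?_, ?_, ?_⟩
    · have := Pool.Agent.Y863.CO.cda hr g' k hψ a1 a2
      rw [ψ.right_inv hwt] at this
      exact this.differentiableAt (by norm_num)
    · have h5 := norm_sub_le_norm_sub_add_norm_sub (ψ (g'^[k] (ψ.symm w)))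
        (ψ (g^[k] (ψ.symm v))) (ψ (g^[k] (ψ.symm w)))
      rw [norm_sub_rev (ψ (g^[k] (ψ.symm v)))] at h5
      linarith
    · have h5 := norm_sub_le_norm_sub_add_norm_sub
        (fderiv ℝ (fun v => ψ (g'^[k] (ψ.symm v))) w)
        (fderiv ℝ (fun v => ψ (g^[k] (ψ.symm v))) (ψ (ψ.symm v)))
        (fderiv ℝ (fun v => ψ (g^[k] (ψ.symm v))) w)
      rw [norm_sub_rev (fderiv ℝ (fun v => ψ (g^[k] (ψ.symm v))) (ψ (ψ.symm v)))] at h5
      linarith

theorem cptK {E : Type} [NormedAddCommGroup E] {ζ : ℤ → E} (htop : Tendsto ζ atTop (𝓝 0))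
    (hbot : Tendsto ζ atBot (𝓝 0)) :
    IsCompact (insert (0 : E) (range fun i : ℤ => if i = 0 then (0 : E) else ζ i)) := by
  have hco : Tendsto (fun i : ℤ => if i = 0 then (0 : E) else ζ i) cofinite (𝓝 0) := by
    have h1 : Tendsto ζ cofinite (𝓝 0) := by
      rw [Int.cofinite_eq]
      exact hbot.sup htop
    have h2 : ∀ᶠ i : ℤ in cofinite, i ≠ 0 := by
      rw [eventually_cofinite]
      simp
    refine h1.congr' ?_
    filter_upwards [h2] with i hi
    simp only [if_neg hi]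
  exact hco.isCompact_insert_range_of_cofinite

theorem main (hHR : S_HR) (hCI : S_CI.{u}) (hT : S_K6.{u}) : S_RH.{u} := by
  classical
  intro n N _ _ _ _ _ r hr g ψ hψ m L ζ h
  have hg : Continuous g := g.continuous
  have hgm : Continuous (g^[m]) := hg.iterate m
  have hgL : Continuous (g^[L]) := hg.iterate L
  have hop : ∀ k : ℕ, IsOpen (ψ.target ∩ (fun v => g^[k] (ψ.symm v)) ⁻¹' ψ.source) := fun k =>
    (((hg.iterate k).comp_continuousOn ψ.continuousOn_symm).isOpen_inter_preimage ψ.open_target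
      ψ.open_source)
  obtain ⟨ε1, hε1, he0, heζ⟩ := unif h.data.top h.data.bot (hop m)
    ⟨h.zero_mem, by
      show g^[m] (ψ.symm 0) ∈ ψ.source
      rw [h.per]
      exact ψ.map_target h.zero_mem⟩
    (fun i hi => ⟨h.mem i, by
      show g^[m] (ψ.symm (ζ i)) ∈ ψ.source
      rw [h.step i hi]
      exact ψ.map_target (h.mem _)⟩)
  obtain ⟨ε2, hε2, he2⟩ : ∃ ε2 : ℝ, 0 < ε2 ∧ ∀ x, ‖x - ζ 0‖ ≤ ε2 →
      x ∈ ψ.target ∩ (fun v => g^[L] (ψ.symm v)) ⁻¹' ψ.source := by
    have h1 : ψ.target ∩ (fun v => g^[L] (ψ.symm v)) ⁻¹' ψ.source ∈ 𝓝 (ζ 0) :=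
      (hop L).mem_nhds ⟨h.mem 0, by
        show g^[L] (ψ.symm (ζ 0)) ∈ ψ.source
        rw [h.jump]
        exact ψ.map_target (h.mem _)⟩
    obtain ⟨ε2, hε2, hsub⟩ := nhds_basis_closedBall.mem_iff.1 h1
    exact ⟨ε2, hε2, fun x hx => hsub (by rwa [mem_closedBall, dist_eq_norm])⟩
  have hz0 : 0 < ‖ζ 0‖ := norm_pos_iff.2 h.ne
  obtain ⟨ε, hε⟩ : ∃ ε : ℝ, ε = min (min ε1 ε2) (‖ζ 0‖ / 3) := ⟨_, rfl⟩
  have hεpos : 0 < ε := by rw [hε]; positivity
  have hεle1 : ε ≤ ε1 := by rw [hε]; exact (min_le_left _ _).trans (min_le_left _ _)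
  have hεle2 : ε ≤ ε2 := by rw [hε]; exact (min_le_left _ _).trans (min_le_right _ _)
  have hεle3 : ε ≤ ‖ζ 0‖ / 3 := by rw [hε]; exact min_le_right _ _
  obtain ⟨M, hM1, ρ, δ, hρ, hρε, hδ, hM⟩ := hHR (V n) _ _ ζ h.data ε hεpos
  -- the compact sets of the chart
  have hK1 : IsCompact ((insert (0 : V n) (range fun i : ℤ => if i = 0 then (0 : V n) else ζ i)) +
      closedBall (0 : V n) ε) := (cptK h.data.top h.data.bot).add (isCompact_closedBall _ _)
  have hC0 : ∀ x : V n, ‖x‖ ≤ ε → x ∈ (insert (0 : V n)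
      (range fun i : ℤ => if i = 0 then (0 : V n) else ζ i)) + closedBall (0 : V n) ε := fun x hx =>
    ⟨0, mem_insert _ _, x, by rwa [mem_closedBall, dist_zero_right], zero_add x⟩
  have hCζ : ∀ i : ℤ, i ≠ 0 → ∀ x : V n, ‖x - ζ i‖ ≤ ε → x ∈ (insert (0 : V n)
      (range fun i : ℤ => if i = 0 then (0 : V n) else ζ i)) + closedBall (0 : V n) ε :=
    fun i hi x hx => ⟨ζ i, mem_insert_of_mem _ ⟨i, if_neg hi⟩, x - ζ i,
      by rwa [mem_closedBall, dist_zero_right], add_sub_cancel _ _⟩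
  obtain ⟨U1, hU1, hgU1, hn1⟩ := near hCI hr g hψ m hK1 (by
    rintro _ ⟨a, ha, b, hb, rfl⟩
    rw [mem_closedBall, dist_zero_right] at hb
    have hz : ∀ c : V n, c = 0 → c + b ∈ ψ.target ∩ (fun v => g^[m] (ψ.symm v)) ⁻¹' ψ.source := by
      rintro _ rfl
      rw [zero_add]
      exact he0 b (hb.trans hεle1)
    rcases ha with ha | ⟨i, rfl⟩
    · exact hz a ha
    · by_cases hi : i = 0
      · exact hz _ (if_pos hi)
      · show (if i = 0 then (0 : V n) else ζ i) + b ∈ _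
        rw [if_neg hi]
        refine heζ i hi _ ?_
        rw [add_sub_cancel_left]
        exact hb.trans hεle1) hδ
  obtain ⟨U2, hU2, hgU2, hn2⟩ := near hCI hr g hψ L (isCompact_closedBall (ζ 0) ε) (by
    intro x hx
    rw [mem_closedBall, dist_eq_norm] at hx
    exact he2 x (hx.trans hεle2)) hδ
  -- the compact sets
  let K : Bool → Set N := fun b => ψ.symm '' closedBall (if b = true then ζ 0 else 0) ε
  have hballT : closedBall (ζ 0) ε ⊆ ψ.target := fun x hx =>
    (he2 x (by rw [mem_closedBall, dist_eq_norm] at hx; exact hx.trans hεle2)).1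
  have hball0 : closedBall (0 : V n) ε ⊆ ψ.target := fun x hx =>
    (he0 x (by rw [mem_closedBall, dist_zero_right] at hx; exact hx.trans hεle1)).1
  have hKc : ∀ b, IsClosed (K b) := by
    intro b
    refine IsCompact.isClosed (IsCompact.image_of_continuousOn (isCompact_closedBall _ _) ?_)
    refine ψ.continuousOn_symm.mono ?_
    cases b
    · simpa using hball0
    · simpa using hballT
  have hKd : Disjoint (K true) (K false) := by
    rw [Set.disjoint_left]
    rintro _ ⟨a, ha, rfl⟩ ⟨b, hb, hab⟩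
    simp only [if_true] at ha
    simp only [Bool.false_eq_true, if_false] at hb
    have h1 : b = a := ψ.symm.injOn (hball0 hb) (hballT ha) hab
    rw [h1, mem_closedBall, dist_zero_right] at hb
    rw [mem_closedBall, dist_eq_norm] at ha
    have h2 : ‖ζ 0‖ ≤ ‖a‖ + ‖a - ζ 0‖ := by
      have := norm_sub_le a (a - ζ 0)
      rwa [sub_sub_cancel] at this
    linarith
  have hM1' : ∀ b : Bool, 1 ≤ (if b = true then L else m) + 2 * M * m := by
    intro b
    have h1 : 1 ≤ M * m := Nat.mul_pos hM1 h.m1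
    have h2 : 1 ≤ 2 * M * m := by
      rw [mul_assoc]
      omega
    exact h2.trans (Nat.le_add_left _ _)
  refine ⟨U1 ∩ U2, opInter (strongTop n N r) hU1 hU2, ⟨hgU1, hgU2⟩, ?_⟩
  rintro g' ⟨hg'1, hg'2⟩
  have hP1 := hn1 g' hg'1
  have hP2 := hn2 g' hg'2
  have hM' := hM (fun v => ψ (g'^[m] (ψ.symm v))) (fun v => ψ (g'^[L] (ψ.symm v)))
    (by
      intro x hx
      rw [mem_closedBall, dist_zero_right] at hx
      exact (hP1 x (hC0 x (hx.trans hρε))).2)
    (by
      intro i hi x hx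
      rw [mem_closedBall, dist_eq_norm] at hx
      exact (hP1 x (hCζ i hi x (hx.trans hρε))).2)
    (by
      intro x hx
      exact (hP2 x (closedBall_subset_closedBall hρε hx)).2)
  refine hT N g' g'.continuous K hKc hKd (fun b => (if b = true then L else m) + 2 * M * m) hM1' ?_
  have key : ∀ (q : ℕ) (σ : ℕ → Bool), 1 ≤ q → ∃ x ∈ Per g', ∀ j < q,
      g'^[∑ i ∈ Finset.range j, ((if σ i = true then L else m) + 2 * M * m)] x ∈ K (σ j) := by
   intro q σ hq
   have hqne : (q : ℤ) ≠ 0 := by omega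
   let σ' : ℤ → Bool := fun j => σ (j % q).toNat
   have hσ' : ∀ j, σ' (j + q) = σ' j := fun j => by simp [σ']
   obtain ⟨x, hx1, hx2, hx3⟩ := hM' q σ' hq hσ'
   obtain ⟨P, hP⟩ : ∃ P : ℤ, P = 2 * (M : ℤ) + 1 := ⟨_, rfl⟩
   rw [← hP] at hx1 hx2 hx3
   have hPpos : 0 < P := by omega
   let Y : ℤ → N := fun i => ψ.symm (x i)
   -- steps
   have hstepL : ∀ i, σ' (i / P) = true → i % P = M → g'^[L] (Y i) = Y (i + 1) := by
     intro i h1 h2
     have h3 := hx2 i
     rw [if_pos ⟨h1, h2⟩] at h3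
     have h4 := hx3 i
     rw [if_pos h1, h2, sub_self] at h4
     have h5 := (hP2 (x i) (by rw [mem_closedBall, dist_eq_norm]; exact h4)).1
     show g'^[L] (ψ.symm (x i)) = ψ.symm (x (i + 1))
     rw [h3]
     exact (ψ.left_inv h5).symm
   have hstepm : ∀ i, ¬ (σ' (i / P) = true ∧ i % P = M) → g'^[m] (Y i) = Y (i + 1) := by
     intro i h1
     have h3 := hx2 i
     rw [if_neg h1] at h3
     have h4 := hx3 i
     have h5 : g'^[m] (ψ.symm (x i)) ∈ ψ.source := by
       by_cases h2 : σ' (i / P) = true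
       · rw [if_pos h2] at h4
         refine (hP1 _ (hCζ (i % P - M) ?_ _ h4)).1
         intro h6
         exact h1 ⟨h2, by omega⟩
       · rw [if_neg h2, sub_zero] at h4
         exact (hP1 _ (hC0 _ h4)).1
     show g'^[m] (ψ.symm (x i)) = ψ.symm (x (i + 1))
     rw [h3]
     exact (ψ.left_inv h5).symm
   have hdiv : ∀ j : ℤ, (j * P + M) / P = j := by
     intro j
     rw [Int.add_comm, Int.add_mul_ediv_right _ _ hPpos.ne', Int.ediv_eq_zero_of_lt (by omega)
       (by omega), zero_add]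
   have hmod : ∀ j : ℤ, (j * P + M) % P = M := by
     intro j
     rw [Int.add_comm, Int.add_mul_emod_self_right, Int.emod_eq_of_lt (by omega) (by omega)]
   have hmod' : ∀ (j : ℤ) (k : ℕ), k < 2 * M → (j * P + M + 1 + k) % P ≠ M := by
     intro j k hk h1
     have h2 : (P : ℤ) ∣ (j * P + M + 1 + k) - M := by
       have := Int.dvd_self_sub_of_emod_eq h1
       exact this
     have h3 : (P : ℤ) ∣ 1 + k := by
       have h4 : (j * P + M + 1 + k) - M = j * P + (1 + k) := by ring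
       rw [h4] at h2
       exact (Int.dvd_add_right (Dvd.intro_left j rfl)).1 h2
     have h5 := Int.le_of_dvd (by omega) h3
     omega
   have hblock : ∀ j : ℤ, g'^[(if σ' j = true then L else m) + 2 * M * m] (Y (j * P + M)) =
       Y ((j + 1) * P + M) := by
     intro j
     have h1 : g'^[if σ' j = true then L else m] (Y (j * P + M)) = Y (j * P + M + 1) := by
       split_ifs with hj
       · exact hstepL _ (by rwa [hdiv]) (hmod j)
       · refine hstepm _ fun h2 => hj ?_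
         rw [hdiv] at h2
         exact h2.1
     have h2 : ∀ k : ℕ, k ≤ 2 * M → g'^[k * m] (Y (j * P + M + 1)) = Y (j * P + M + 1 + k) := by
       intro k
       induction k with
       | zero => intro _; simp
       | succ k ih =>
         intro hk
         rw [Nat.succ_mul, Nat.add_comm, Function.iterate_add_apply, ih (by omega),
           hstepm _ fun h3 => hmod' j k (by omega) h3.2]
         congr 1
         push_cast
         ring
     rw [Nat.add_comm, Function.iterate_add_apply, h1, h2 _ le_rfl]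
     congr 1
     rw [hP]
     push_cast
     ring
   have hsum : ∀ j : ℕ, j ≤ q → g'^[∑ i ∈ Finset.range j,
       ((if σ i = true then L else m) + 2 * M * m)] (Y M) = Y (j * P + M) := by
     intro j
     induction j with
     | zero => intro _; simp
     | succ j ih =>
       intro hj
       rw [Finset.sum_range_succ, Nat.add_comm, Function.iterate_add_apply, ih (by omega)]
       have h1 : σ' (j : ℤ) = σ j := by
         simp only [σ']
         congr 1
         rw [Int.emod_eq_of_lt (by omega) (by omega)]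
         rfl
       have h2 := hblock (j : ℤ)
       rw [h1] at h2
       rw [h2]
       congr 1
   refine ⟨Y M, ⟨∑ i ∈ Finset.range q, ((if σ i = true then L else m) + 2 * M * m), ?_, ?_⟩, ?_⟩
   · have h1 : 1 ≤ M * m := Nat.mul_pos hM1 h.m1
     have h2 : 1 ≤ 2 * M * m := by
       rw [mul_assoc]
       omega
     calc 1 ≤ (if σ 0 = true then L else m) + 2 * M * m := h2.trans (Nat.le_add_left _ _)
       _ ≤ _ := Finset.single_le_sum (f := fun i => (if σ i = true then L else m) + 2 * M * m)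
         (fun i _ => Nat.zero_le _) (Finset.mem_range.2 hq)
   · rw [hsum q le_rfl]
     show ψ.symm _ = ψ.symm _
     congr 1
     have := hx1 M
     rw [add_comm] at this
     exact this
   · intro j hj
     rw [hsum j hj.le]
     have h1 : σ' (j : ℤ) = σ j := by
       simp only [σ']
       congr 1
       rw [Int.emod_eq_of_lt (by omega) (by omega)]
       rfl
     have h2 := hx3 (j * P + M)
     rw [hdiv, hmod, sub_self, h1] at h2
     refine ⟨_, ?_, rfl⟩
     rw [mem_closedBall, dist_eq_norm]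
     exact h2
  intro q σ
  rcases Nat.eq_zero_or_pos q with rfl | hq
  · obtain ⟨x, hx, -⟩ := key 1 σ le_rfl
    exact ⟨x, hx, fun j hj => absurd hj (by omega)⟩
  · exact key q σ hq

end Pool.Agent.Y801.CO.RH
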